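import Mathlib

/-!
# Contracted modular numerical semigroups admit Toms decompositions
-/

set_option autoImplicit false

namespace Pool.Agent.Results.MP_94066b_nt.TomsDecomposition

/-- `T(a,b,c)`: the integers `x` with `a x mod b ≤ x - c`. -/
def T (a b c : ℕ) : Set ℤ := {x : ℤ | ((a : ℤ) * x) % (b : ℤ) ≤ x - (c : ℤ)}

/-- `S` admits a Toms decomposition: there are positive integers `L`, `q_1, ..., q_n`,
`m_1, ..., m_n` (`n ≥ 1`) with `gcd(q_i,m_i) = gcd(L,m_i) = gcd(L,q_i) = 1` for all `i` such that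
`S` is the set of the natural numbers `x` for which `L x` lies in every `⟨q_i, m_i⟩`. -/
def HasTomsDecomposition (S : Set ℤ) : Prop :=
  ∃ (L n : ℕ) (q m : Fin n → ℕ), 0 < L ∧ 0 < n ∧
    (∀ i, 0 < q i ∧ 0 < m i ∧ Nat.gcd (q i) (m i) = 1 ∧ Nat.gcd L (m i) = 1 ∧
      Nat.gcd L (q i) = 1) ∧
    S = (fun x : ℕ => (x : ℤ)) '' {x : ℕ | ∀ i, L * x ∈ AddSubmonoid.closure {q i, m i}}

/-- the arithmetic core: for a fraction interval `(K/g, (K+1)/g)` and every large prime `L` -/
lemma exists_pair (g K N : ℤ) (hg : 0 < g) (hK : 0 ≤ K) (hN : 1 ≤ N) :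
    ∃ B0 : ℕ, ∀ L : ℕ, L.Prime → B0 ≤ L → ∃ q m u v : ℤ, 0 < q ∧ 0 < m ∧ IsCoprime q m ∧
      IsCoprime (L : ℤ) m ∧ IsCoprime (L : ℤ) q ∧ q * u - m * v = L ∧ K * q < v * g ∧
      N * (v * g - K * q) ≤ q ∧ u * g < (K + 1) * m ∧ N * ((K + 1) * m - u * g) ≤ m := by
  set B : ℤ := N * (K + 1) with hB
  have hB1 : K + 1 ≤ B := by nlinarith
  have hBpos : 0 < B := by linarith
  set m : ℤ := B * g + 1 with hm
  set u : ℤ := B * (K + 1) with hu
  set D : ℤ := B * g - K with hD
  have hBg : B ≤ B * g := by nlinarith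
  have hDpos : 0 < D := by linarith
  have hmpos : 0 < m := by positivity
  have hDu : D = g * u - K * m := by rw [hD, hu, hm]; ring
  have c1 : IsCoprime m B := ⟨1, -g, by rw [hm]; ring⟩
  have c2 : IsCoprime m (K + 1) := IsCoprime.of_isCoprime_of_dvd_right c1 ⟨N, by rw [hB]; ring⟩
  have c3 : IsCoprime u m := (c1.mul_right c2).symm
  obtain ⟨x, y, hxy⟩ := c3
  refine ⟨(m + 2 * N * D * D).toNat + 2, fun L hL hLB => ?_⟩
  have hLB' : m + 2 * N * D * D + 2 ≤ (L : ℤ) := by
    have h1 : (((m + 2 * N * D * D).toNat + 2 : ℕ) : ℤ) ≤ (L : ℤ) := by exact_mod_cast hLB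
    push_cast at h1
    have h2 := Int.self_le_toNat (m + 2 * N * D * D)
    linarith
  have hND : 0 < N * D * D := by positivity
  have hLpos : (0 : ℤ) < L := by linarith
  have hLp : Prime (L : ℤ) := Nat.prime_iff_prime_int.mp hL
  have key : ∃ t : ℤ, ¬ ((L : ℤ) ∣ t) ∧ 1 ≤ L * (-y * g - K * x) + t * D ∧
      L * (-y * g - K * x) + t * D ≤ 2 * D := by
    set E : ℤ := L * (-y * g - K * x) with hE
    have h1 := Int.emod_add_mul_ediv (E - 1) D
    have h2 := Int.emod_nonneg (E - 1) hDpos.ne'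
    have h3 := Int.emod_lt_of_pos (E - 1) hDpos
    by_cases hd : (L : ℤ) ∣ -((E - 1) / D)
    · refine ⟨-((E - 1) / D) + 1, ?_, ?_, ?_⟩
      · intro h
        have h4 : (L : ℤ) ∣ 1 := (Int.dvd_add_right hd).mp h
        exact hLp.not_isUnit (isUnit_of_dvd_one h4)
      · nlinarith
      · nlinarith
    · refine ⟨-((E - 1) / D), hd, ?_, ?_⟩
      · nlinarith
      · nlinarith
  obtain ⟨t, ht, hw1, hw2⟩ := key
  set q : ℤ := L * x + t * m with hq
  set v : ℤ := L * (-y) + t * u with hv
  have hdet : q * u - m * v = L := by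
    have : q * u - m * v = L * (x * u + y * m) := by rw [hq, hv]; ring
    rw [this, hxy, mul_one]
  have hw : v * g - K * q = L * (-y * g - K * x) + t * D := by
    rw [hq, hv, hDu]; ring
  have hDq : D * q = g * L + m * (v * g - K * q) := by
    rw [hDu, ← hdet]; ring
  have hw1' : 1 ≤ v * g - K * q := by rw [hw]; exact hw1
  have hw2' : v * g - K * q ≤ 2 * D := by rw [hw]; exact hw2
  have hDq' : g * L ≤ D * q := by
    rw [hDq]
    have : 0 ≤ m * (v * g - K * q) := mul_nonneg hmpos.le (by linarith)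
    linarith
  have hgL : (L : ℤ) ≤ g * L := by nlinarith
  have hqpos : 0 < q := by
    have : 0 < D * q := by linarith
    exact (mul_pos_iff_of_pos_left hDpos).mp this
  have cLm : IsCoprime (L : ℤ) m := by
    rw [hLp.coprime_iff_not_dvd]
    intro h
    have := Int.le_of_dvd hmpos h
    linarith
  have cxm : IsCoprime x m := ⟨u, y, by linarith⟩
  refine ⟨q, m, u, v, hqpos, hmpos, ?_, cLm, ?_, hdet, by linarith, ?_, ?_, ?_⟩
  · have h1 : IsCoprime ((L : ℤ) * x) m := cLm.mul_left cxm
    rw [hq]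
    exact h1.add_mul_right_left t
  · have h1 : IsCoprime (L : ℤ) (t * m) :=
      ((hLp.coprime_iff_not_dvd).mpr ht).mul_right cLm
    rw [hq]
    exact (IsCoprime.add_mul_left_right h1 x : IsCoprime (L : ℤ) (t * m + L * x)) |> fun h => by
      rwa [add_comm] at h
  · have h1 : D * (N * (v * g - K * q)) ≤ D * q := by
      have h2 : N * (v * g - K * q) ≤ N * (2 * D) := mul_le_mul_of_nonneg_left hw2' (by linarith)
      have h3 : D * (N * (v * g - K * q)) ≤ D * (N * (2 * D)) := mul_le_mul_of_nonneg_left h2 hDpos.le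
      have h4 : D * (N * (2 * D)) = 2 * N * D * D := by ring
      linarith
    exact le_of_mul_le_mul_left h1 hDpos
  · have : (K + 1) * m - u * g = K + 1 := by rw [hm, hu]; ring
    linarith
  · have : (K + 1) * m - u * g = K + 1 := by rw [hm, hu]; ring
    rw [this, ← hB, hm]
    linarith

/-- membership in `⟨q, m⟩` -/
lemma mem_closure_pair_iff (q m x : ℕ) :
    x ∈ AddSubmonoid.closure {q, m} ↔ ∃ i j : ℕ, i * q + j * m = x := by
  rw [AddSubmonoid.mem_closure_pair]
  simp only [smul_eq_mul]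

/-- one pair for one gap -/
lemma pair_for_gap (a b c : ℕ) (hb : b ≠ 0) (g : ℕ) (hg : (g : ℤ) ∉ T a b c ∪ {0}) :
    ∃ B0 : ℕ, ∀ L : ℕ, L.Prime → B0 ≤ L → ∃ q m : ℕ, 0 < q ∧ 0 < m ∧ Nat.gcd q m = 1 ∧
      Nat.gcd L m = 1 ∧ Nat.gcd L q = 1 ∧
      (∀ s : ℕ, (s : ℤ) ∈ T a b c ∪ {0} → L * s ∈ AddSubmonoid.closure {q, m}) ∧
      L * g ∉ AddSubmonoid.closure {q, m} := by
  have hbpos : (0 : ℤ) < b := by exact_mod_cast Nat.pos_of_ne_zero hb
  rw [Set.mem_union, not_or] at hg
  obtain ⟨hgT, hg0⟩ := hg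
  have hgpos : (0 : ℤ) < g := by
    have : (g : ℤ) ≠ 0 := hg0
    positivity
  have hgT' : (g : ℤ) - c < (a * g : ℤ) % b := not_le.mp hgT
  set K : ℤ := (a * g : ℤ) / b with hKdef
  have hK : 0 ≤ K := Int.ediv_nonneg (by positivity) hbpos.le
  have hgmod := Int.emod_add_mul_ediv (a * g : ℤ) b
  rw [← hKdef] at hgmod
  have hglt := Int.emod_lt_of_pos (a * g : ℤ) hbpos
  -- the fractions
  have frac : ∀ s : ℤ, 0 < s → s ∈ T a b c → ∃ k : ℤ, K * s + 1 ≤ k * g ∧ k * g + 1 ≤ (K + 1) * s := by
    intro s hs hsT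
    have hsT' : (a * s : ℤ) % b ≤ s - c := hsT
    rcases lt_trichotomy s g with h | h | h
    · refine ⟨(a * s : ℤ) / b, ?_, ?_⟩
      · have hsmod := Int.emod_add_mul_ediv (a * s : ℤ) b
        set k := (a * s : ℤ) / b
        set rs := (a * s : ℤ) % b
        set rg := (a * g : ℤ) % b
        -- b (k g - K s) = (a s - rs) g - (a g - rg) s = rg s - rs g
        have e : (b : ℤ) * (k * g - K * s) = rg * s - rs * g := by
          have e1 : (b : ℤ) * k = a * s - rs := by linarith
          have e2 : (b : ℤ) * K = a * g - rg := by linarith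
          calc (b : ℤ) * (k * g - K * s) = ((b : ℤ) * k) * g - ((b : ℤ) * K) * s := by ring
            _ = (a * s - rs) * g - (a * g - rg) * s := by rw [e1, e2]
            _ = rg * s - rs * g := by ring
        have hpos : 0 < rg * s - rs * g := by
          have h1 : (g - c + 1) * s ≤ rg * s := mul_le_mul_of_nonneg_right (by linarith) hs.le
          have h2 : rs * g ≤ (s - c) * g := mul_le_mul_of_nonneg_right hsT' hgpos.le
          have hc : (0 : ℤ) ≤ c := by positivity
          nlinarith [mul_nonneg hc (sub_nonneg.mpr h.le)]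
        have : 0 < k * g - K * s := by
          have h3 : 0 < (b : ℤ) * (k * g - K * s) := by rw [e]; exact hpos
          exact (mul_pos_iff_of_pos_left hbpos).mp h3
        linarith
      · have hsmod := Int.emod_add_mul_ediv (a * s : ℤ) b
        have hs0 := Int.emod_nonneg (a * s : ℤ) hbpos.ne'
        set k := (a * s : ℤ) / b
        set rs := (a * s : ℤ) % b
        set rg := (a * g : ℤ) % b
        -- b ((K+1) s - k g) = (a g - rg + b) s - (a s - rs) g = (b - rg) s + rs g > 0
        have e : (b : ℤ) * ((K + 1) * s - k * g) = (b - rg) * s + rs * g := by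
          have e1 : (b : ℤ) * k = a * s - rs := by linarith
          have e2 : (b : ℤ) * K = a * g - rg := by linarith
          calc (b : ℤ) * ((K + 1) * s - k * g) = ((b : ℤ) * K + b) * s - ((b : ℤ) * k) * g := by ring
            _ = (a * g - rg + b) * s - (a * s - rs) * g := by rw [e1, e2]
            _ = (b - rg) * s + rs * g := by ring
        have hpos : 0 < (b - rg) * s + rs * g := by
          have h1 : 0 < (b - rg) * s := mul_pos (by linarith) hs
          have h2 : 0 ≤ rs * g := mul_nonneg hs0 hgpos.le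
          linarith
        have : 0 < (K + 1) * s - k * g := by
          have h3 : 0 < (b : ℤ) * ((K + 1) * s - k * g) := by rw [e]; exact hpos
          exact (mul_pos_iff_of_pos_left hbpos).mp h3
        linarith
    · exact absurd hsT (h ▸ hgT)
    · refine ⟨K * s / g + 1, ?_, ?_⟩
      · have h1 := Int.emod_add_mul_ediv (K * s) g
        have h2 := Int.emod_lt_of_pos (K * s) hgpos
        nlinarith
      · have h1 := Int.emod_add_mul_ediv (K * s) g
        have h2 := Int.emod_nonneg (K * s) hgpos.ne'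
        nlinarith
  set C : ℕ := b + c with hC
  have hbig : ∀ x : ℤ, (C : ℤ) ≤ x → x ∈ T a b c := by
    intro x hx
    have h1 := Int.emod_lt_of_pos (a * x : ℤ) hbpos
    have h2 : (C : ℤ) = b + c := by rw [hC]; push_cast; ring
    show (a * x : ℤ) % b ≤ x - c
    linarith
  have hCpos : 0 < C := by omega
  obtain ⟨B0, hB0⟩ := exists_pair g K (2 * C) hgpos hK (by linarith [(by exact_mod_cast hCpos : (0 : ℤ) < C)])
  refine ⟨B0, fun L hL hLB => ?_⟩
  obtain ⟨q, m, u, v, hq, hm, cqm, cLm, cLq, hdet, hv1, hv2, hu1, hu2⟩ := hB0 L hL hLB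
  lift q to ℕ using hq.le
  lift m to ℕ using hm.le
  have hq' : 0 < q := by exact_mod_cast hq
  have hm' : 0 < m := by exact_mod_cast hm
  refine ⟨q, m, hq', hm', ?_, ?_, ?_, ?_, ?_⟩
  · exact Nat.isCoprime_iff_coprime.mp cqm
  · exact Nat.isCoprime_iff_coprime.mp cLm
  · exact Nat.isCoprime_iff_coprime.mp cLq
  · -- the elements of S
    have small : ∀ s : ℕ, 0 < s → s < 2 * C → (s : ℤ) ∈ T a b c →
        L * s ∈ AddSubmonoid.closure {q, m} := by
      intro s hs0 hs2 hsT
      have hs0' : (0 : ℤ) < s := by exact_mod_cast hs0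
      have hs2' : (s : ℤ) < 2 * C := by exact_mod_cast hs2
      obtain ⟨k, hk1, hk2⟩ := frac s hs0' hsT
      have hi : 0 ≤ u * s - m * k := by
        have h1 : 0 ≤ (u * s - m * k) * g := by
          have e : (u * s - m * k) * g = (u * g) * s - m * (k * g) := by ring
          have h2 : m * (k * g) ≤ m * ((K + 1) * s - 1) := mul_le_mul_of_nonneg_left (by linarith) hm.le
          have h3 : (2 * C : ℤ) * ((K + 1) * m - u * g) ≤ m := hu2
          have h4 : (s : ℤ) * ((K + 1) * m - u * g) ≤ (2 * C : ℤ) * ((K + 1) * m - u * g) :=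
            mul_le_mul_of_nonneg_right hs2'.le (by linarith)
          rw [e]
          nlinarith
        exact nonneg_of_mul_nonneg_left h1 hgpos
      have hj : 0 ≤ q * k - v * s := by
        have h1 : 0 ≤ (q * k - v * s) * g := by
          have e : (q * k - v * s) * g = q * (k * g) - (v * g) * s := by ring
          have h2 : q * (K * s + 1) ≤ q * (k * g) := mul_le_mul_of_nonneg_left hk1 hq.le
          have h4 : (s : ℤ) * (v * g - K * q) ≤ (2 * C : ℤ) * (v * g - K * q) :=
            mul_le_mul_of_nonneg_right hs2'.le (by linarith)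
          rw [e]
          nlinarith
        exact nonneg_of_mul_nonneg_left h1 hgpos
      rw [mem_closure_pair_iff]
      refine ⟨(u * s - m * k).toNat, (q * k - v * s).toNat, ?_⟩
      have e1 := Int.toNat_of_nonneg hi
      have e2 := Int.toNat_of_nonneg hj
      have : (((u * s - m * k).toNat * q + (q * k - v * s).toNat * m : ℕ) : ℤ) = ((L * s : ℕ) : ℤ) := by
        push_cast
        rw [e1, e2, ← hdet]
        ring
      exact_mod_cast this
    intro s hs
    induction s using Nat.strong_induction_on with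
    | _ s ih =>
      rcases Nat.eq_zero_or_pos s with h0 | h0
      · subst h0
        simp
      · have hsT : (s : ℤ) ∈ T a b c := by
          rcases hs with h | h
          · exact h
          · exfalso
            have : (s : ℤ) = 0 := h
            omega
        by_cases hlt : s < 2 * C
        · exact small s h0 hlt hsT
        · have h1 : L * s = L * C + L * (s - C) := by
            rw [← Nat.mul_add]
            congr 1
            omega
          rw [h1]
          refine AddSubmonoid.add_mem _ (small C hCpos (by omega) (hbig _ le_rfl)) ?_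
          refine ih (s - C) (by omega) (Or.inl (hbig _ ?_))
          have : C ≤ s - C := by omega
          exact_mod_cast this
  · -- the gap
    rw [mem_closure_pair_iff]
    rintro ⟨i, j, hij⟩
    have hij' : (i : ℤ) * q + j * m = L * g := by exact_mod_cast hij
    have hdvd : (m : ℤ) ∣ q * (u * g - i) := by
      refine ⟨j + v * g, ?_⟩
      have e1 : (L : ℤ) * g = (q * u - m * v) * g := by rw [hdet]
      linear_combination -hij' - e1
    have hdvd2 : (m : ℤ) ∣ u * g - i := (cqm.symm).dvd_of_dvd_mul_left hdvd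
    obtain ⟨k, hk⟩ := hdvd2
    have hj : (j : ℤ) * m = (q * k - v * g) * m := by
      have e1 : (L : ℤ) * g = (q * u - m * v) * g := by rw [hdet]
      have e : (q : ℤ) * (u * g - i) = q * (m * k) := by rw [hk]
      have e2 : (j : ℤ) * m = L * g - i * q := by linarith
      rw [e2, e1]
      linear_combination e
    have hj' : (j : ℤ) = q * k - v * g := mul_right_cancel₀ hm.ne' hj
    have hk1 : K < k := by
      by_contra hcon
      have : k ≤ K := not_lt.mp hcon
      have h1 : (q : ℤ) * k ≤ q * K := mul_le_mul_of_nonneg_left this hq.le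
      have h2 : (0 : ℤ) ≤ j := by positivity
      have h3 : (q : ℤ) * K = K * q := mul_comm _ _
      linarith
    have hk2 : k < K + 1 := by
      by_contra hcon
      have : K + 1 ≤ k := not_lt.mp hcon
      have h1 : (m : ℤ) * (K + 1) ≤ m * k := mul_le_mul_of_nonneg_left this hm.le
      have h2 : (0 : ℤ) ≤ i := by positivity
      have h3 : (m : ℤ) * (K + 1) = (K + 1) * m := mul_comm _ _
      linarith
    omega

/-- For all nonnegative integers `a, b, c` with `b ≠ 0`, the contracted modular numerical semigroup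
`T(a,b,c) ∪ {0}` admits a Toms decomposition. -/
theorem result (a b c : ℕ) (hb : b ≠ 0) : HasTomsDecomposition (T a b c ∪ {0}) := by
  classical
  have hbpos : (0 : ℤ) < b := by exact_mod_cast Nat.pos_of_ne_zero hb
  set C : ℕ := b + c with hC
  have hbig : ∀ x : ℤ, (C : ℤ) ≤ x → x ∈ T a b c := by
    intro x hx
    have h1 := Int.emod_lt_of_pos (a * x : ℤ) hbpos
    have h2 : (C : ℤ) = b + c := by rw [hC]; push_cast; ring
    show (a * x : ℤ) % b ≤ x - c
    linarith
  have hnonneg : ∀ x : ℤ, x ∈ T a b c → 0 ≤ x := by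
    intro x hx
    have h1 := Int.emod_nonneg (a * x : ℤ) hbpos.ne'
    have h2 : (a * x : ℤ) % b ≤ x - c := hx
    have h3 : (0 : ℤ) ≤ c := by positivity
    linarith
  have key : ∀ g : Fin (C + 1), ∃ B0 : ℕ, ∀ L : ℕ, L.Prime → B0 ≤ L → ∃ q m : ℕ, 0 < q ∧ 0 < m ∧
      Nat.gcd q m = 1 ∧ Nat.gcd L m = 1 ∧ Nat.gcd L q = 1 ∧
      (∀ s : ℕ, (s : ℤ) ∈ T a b c ∪ {0} → L * s ∈ AddSubmonoid.closure {q, m}) ∧
      (((g : ℕ) : ℤ) ∉ T a b c ∪ {0} → L * g ∉ AddSubmonoid.closure {q, m}) := by
    intro g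
    by_cases hg : ((g : ℕ) : ℤ) ∈ T a b c ∪ {0}
    · refine ⟨0, fun L _ _ => ⟨1, 1, one_pos, one_pos, rfl, Nat.gcd_one_right _, Nat.gcd_one_right _,
        fun s _ => ?_, fun h => absurd hg h⟩⟩
      rw [mem_closure_pair_iff]
      exact ⟨L * s, 0, by ring⟩
    · obtain ⟨B0, hB0⟩ := pair_for_gap a b c hb g hg
      refine ⟨B0, fun L hL hLB => ?_⟩
      obtain ⟨q, m, h1, h2, h3, h4, h5, h6, h7⟩ := hB0 L hL hLB
      exact ⟨q, m, h1, h2, h3, h4, h5, h6, fun _ => h7⟩
  choose B0 hB0 using key
  obtain ⟨L, hLB, hL⟩ := Nat.exists_infinite_primes (Finset.univ.sup B0)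
  have hLB' : ∀ g, B0 g ≤ L := fun g => (Finset.le_sup (Finset.mem_univ g)).trans hLB
  choose q m h1 h2 h3 h4 h5 h6 h7 using fun g => hB0 g L hL (hLB' g)
  refine ⟨L, C + 1, q, m, hL.pos, Nat.succ_pos _, fun i => ⟨h1 i, h2 i, h3 i, h4 i, h5 i⟩, ?_⟩
  ext x
  constructor
  · intro hx
    have hx0 : 0 ≤ x := by
      rcases hx with h | h
      · exact hnonneg x h
      · exact le_of_eq (Eq.symm h)
    lift x to ℕ using hx0
    exact ⟨x, fun i => h6 i x hx, rfl⟩
  · rintro ⟨y, hy, rfl⟩
    by_contra hcon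
    have hyC : y < C + 1 := by
      by_contra h
      have h0 : C ≤ y := by omega
      have h1 : (C : ℤ) ≤ (y : ℤ) := by exact_mod_cast h0
      exact hcon (Or.inl (hbig _ h1))
    exact h7 ⟨y, hyC⟩ hcon (hy ⟨y, hyC⟩)

end Pool.Agent.Results.MP_94066b_nt.TomsDecomposition
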